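import Mathlib
import Pool.Agent.Helper70_Newton.Core
import Pool.Agent.Helper70_Newton.Support

open Complex Metric Set Filter Topology Polynomial

namespace Pool.Agent.Results.MP_26a6ef_an.NewtonBoundaryRoots

/-- The Newton map `N_p(z) = z - p(z)/p'(z)`. (At a multiple root of `p` Lean evaluates the
quotient as `0/0 = 0`, giving the value `z` of the rational map `N_p` there.) -/
noncomputable def newton (p : ℂ[X]) (z : ℂ) : ℂ := z - p.eval z / p.derivative.eval z

/-- `z₀` converges to `α`: no iterate is a pole of `N_p` (a point with `p' = 0` and `p ≠ 0`),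
so that all iterates are defined, and the iterates tend to `α`. -/
def ConvergesTo (p : ℂ[X]) (z₀ α : ℂ) : Prop :=
  (∀ n : ℕ, p.derivative.eval ((newton p)^[n] z₀) ≠ 0 ∨ p.eval ((newton p)^[n] z₀) = 0) ∧
    Tendsto (fun n : ℕ => (newton p)^[n] z₀) atTop (𝓝 α)

open Helper70.Newton Helper70.Koebe

theorem newton_root {p : ℂ[X]} {α : ℂ} (h : p.eval α = 0) : newton p α = α := by
  rw [newton, h, zero_div, sub_zero]

/-- the relation of the polynomial with the normalised root configuration -/
structure Conf (p : ℂ[X]) (α u : ℂ) {ι : Type} [Fintype ι] (r : ι → ℂ) : Prop where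
  hu : ‖u‖ = 1
  roots : p.roots = Finset.univ.val.map fun i => α + u * r i
  hp : p ≠ 0

variable {p : ℂ[X]} {α u : ℂ} {ι : Type} [Fintype ι] {r : ι → ℂ}

theorem Conf.u_ne (h : Conf p α u r) : u ≠ 0 := by
  intro h0
  have := h.hu
  rw [h0, norm_zero] at this
  exact zero_ne_one this

theorem Conf.eval_ne (h : Conf p α u r) {ζ : ℂ} (hζ : ∀ i, ζ - r i ≠ 0) :
    p.eval (α + u * ζ) ≠ 0 := by
  intro h0
  have h1 : α + u * ζ ∈ p.roots := (mem_roots h.hp).2 h0
  rw [h.roots, Multiset.mem_map] at h1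
  obtain ⟨i, -, hi⟩ := h1
  have h2 : u * (ζ - r i) = 0 := by linear_combination -hi
  rcases mul_eq_zero.1 h2 with h3 | h3
  · exact h.u_ne h3
  · exact hζ i h3

theorem Conf.deriv_eq (h : Conf p α u r) {ζ : ℂ} (hζ : ∀ i, ζ - r i ≠ 0) :
    p.derivative.eval (α + u * ζ) = p.eval (α + u * ζ) * (u⁻¹ * S r ζ) := by
  rw [(IsAlgClosed.splits p).eval_derivative_eq_eval_mul_sum (h.eval_ne hζ), h.roots,
    Multiset.map_map]
  congr 1
  have h1 : u⁻¹ * S r ζ = ∑ i, 1 / (α + u * ζ - (α + u * r i)) := by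
    rw [S, Finset.mul_sum]
    refine Finset.sum_congr rfl fun i _ => ?_
    have h2 := hζ i
    have h3 := h.u_ne
    have h4 : α + u * ζ - (α + u * r i) = u * (ζ - r i) := by ring
    rw [h4, one_div, mul_inv]
  rw [h1]
  rfl

theorem Conf.newton_eq (h : Conf p α u r) {ζ : ℂ} (hζ : ∀ i, ζ - r i ≠ 0) (hS : S r ζ ≠ 0) :
    newton p (α + u * ζ) = α + u * N r ζ ∧ p.derivative.eval (α + u * ζ) ≠ 0 := by
  have h1 := h.eval_ne hζ
  have h2 := h.deriv_eq hζ
  have h3 := h.u_ne
  refine ⟨?_, ?_⟩
  · rw [newton, h2, N]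
    field_simp
    ring
  · rw [h2]
    exact mul_ne_zero h1 (mul_ne_zero (inv_ne_zero h3) hS)

/-- points close to the root converge -/
theorem Conf.near (h : Conf p α u r) (hα : p.eval α = 0) {x : ℝ} (hS : Scale r x) {ζ : ℂ}
    (hζ : ‖ζ‖ ≤ 3 * x) : ConvergesTo p (α + u * ζ) α := by
  set θ : ℝ := ((mult r : ℝ) - 1 / 2) / (mult r) with hθ
  have hm : (1:ℝ) ≤ mult r := by exact_mod_cast hS.hm
  have hθ0 : 0 ≤ θ := by
    rw [hθ]; apply div_nonneg <;> linarith
  have hθ1 : θ < 1 := by
    rw [hθ, div_lt_one (by linarith)]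
    linarith
  have hsubne : ∀ ζ : ℂ, ‖ζ‖ ≤ 3 * x → ζ ≠ 0 → ∀ i, ζ - r i ≠ 0 := by
    intro ζ hζ hζ0 i
    by_cases hi : r i = 0
    · rw [hi, sub_zero]; exact hζ0
    · exact hS.sub_ne' hζ ⟨i, hi⟩
  have key : ∀ n : ℕ, ∃ ζn : ℂ, (newton p)^[n] (α + u * ζ) = α + u * ζn ∧
      ‖ζn‖ ≤ θ ^ n * (3 * x) := by
    intro n
    induction n with
    | zero => exact ⟨ζ, rfl, by simpa using hζ⟩
    | succ n ih =>
      obtain ⟨ζn, h1, h2⟩ := ih
      by_cases h0 : ζn = 0
      · refine ⟨0, ?_, ?_⟩
        · rw [Function.iterate_succ_apply', h1, h0]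
          simp [newton_root hα]
        · have := hS.pos
          simp
          positivity
      · have h3 : ‖ζn‖ ≤ 3 * x := by
          refine h2.trans ?_
          have := hS.pos
          have h4 : θ ^ n ≤ 1 := pow_le_one₀ hθ0 hθ1.le
          nlinarith
        refine ⟨N r ζn, ?_, ?_⟩
        · rw [Function.iterate_succ_apply', h1]
          exact (h.newton_eq (hsubne ζn h3 h0) (hS.S_ne_zero h3 h0)).1
        · refine (hS.contract h3 h0).trans ?_
          rw [← hθ, pow_succ]
          calc θ * ‖ζn‖ ≤ θ * (θ ^ n * (3 * x)) := by gcongr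
            _ = _ := by ring
  constructor
  · intro n
    obtain ⟨ζn, h1, h2⟩ := key n
    rw [h1]
    by_cases h0 : ζn = 0
    · right
      rw [h0, mul_zero, add_zero]
      exact hα
    · left
      have h3 : ‖ζn‖ ≤ 3 * x := by
        refine h2.trans ?_
        have := hS.pos
        have h4 : θ ^ n ≤ 1 := pow_le_one₀ hθ0 hθ1.le
        nlinarith
      exact (h.newton_eq (hsubne ζn h3 h0) (hS.S_ne_zero h3 h0)).2
  · rw [tendsto_iff_norm_sub_tendsto_zero]
    apply squeeze_zero (fun n => norm_nonneg _) (g := fun n => θ ^ n * (3 * x))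
    · intro n
      obtain ⟨ζn, h1, h2⟩ := key n
      rw [h1]
      have : α + u * ζn - α = u * ζn := by ring
      rw [this, norm_mul, h.hu, one_mul]
      exact h2
    · have := (tendsto_pow_atTop_nhds_zero_of_lt_one hθ0 hθ1).mul_const (3 * x)
      simpa using this

theorem ConvergesTo.of_iterate {z : ℂ} (h1 : p.derivative.eval z ≠ 0)
    (h2 : ConvergesTo p (newton p z) α) : ConvergesTo p z α := by
  constructor
  · intro n
    cases n with
    | zero => left; exact h1
    | succ n =>
      rw [Function.iterate_succ_apply]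
      exact h2.1 n
  · rw [← tendsto_add_atTop_iff_nat 1]
    simpa only [Function.iterate_succ_apply] using h2.2

/-- points in the images of the inverse branch converge -/
theorem Conf.far (h : Conf p α u r) (hα : p.eval α = 0) (hr : ∀ i, (r i).re ≤ 0)
    (hcard : 2 ≤ Fintype.card ι) {x : ℝ} (hS : Scale r x) {ζ : ℂ}
    (hζ : ‖ζ‖ ≤ 3 * x) (hζH : ζ ∈ H) (n : ℕ) : ConvergesTo p (α + u * (phi r)^[n] ζ) α := by
  have hne : Nonempty ι := Fintype.card_pos_iff.1 (by omega)
  induction n with
  | zero => exact h.near hα hS hζ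
  | succ n ih =>
    have h1 : (phi r)^[n+1] ζ ∈ H := iter_mem hr hcard hζH (n+1)
    have h2 := h.newton_eq (fun i => sub_ne hr h1 i) (S_ne hr h1)
    have h3 : N r ((phi r)^[n+1] ζ) = (phi r)^[n] ζ := by
      rw [Function.iterate_succ_apply']
      exact (phi_spec hr hcard (iter_mem hr hcard hζH n)).2
    rw [h3] at h2
    apply ConvergesTo.of_iterate h2.2
    rw [h2.1]
    exact ih

/-- **Positive answer.** For every `R > 1` there is `c > 1` such that for every nonconstant complex
polynomial `p` of degree `d` with all roots in the open unit disc, every root of `p` on the boundary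
of the convex hull of the roots is the limit of the Newton iterates of at least one of the
`⌈c d⌉` equidistributed points on the circle `|z| = R`. -/
theorem result : ∀ R : ℝ, 1 < R → ∃ c : ℝ, 1 < c ∧
    ∀ p : ℂ[X], 1 ≤ p.natDegree → (∀ z : ℂ, p.IsRoot z → ‖z‖ < 1) →
      ∀ α : ℂ, p.IsRoot α → α ∈ frontier (convexHull ℝ {z : ℂ | p.IsRoot z}) →
        ∃ j : ℕ, j < ⌈c * p.natDegree⌉₊ ∧
          ConvergesTo p ((R : ℂ) * exp (2 * Real.pi * I * j / (⌈c * p.natDegree⌉₊ : ℕ))) α := by
  intro R hR
  obtain ⟨c1, hc1, hcore⟩ := core hR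
  have hpi := Real.pi_pos
  have hR0 : 0 < R := by linarith
  refine ⟨2 * Real.pi * R / c1 + 2, ?_, ?_⟩
  · have : 0 < 2 * Real.pi * R / c1 := by positivity
    linarith
  intro p hdeg hdisc α hα hfr
  set c : ℝ := 2 * Real.pi * R / c1 + 2 with hc
  have hcpos : 0 < 2 * Real.pi * R / c1 := by positivity
  have hp0 : p ≠ 0 := by
    rintro rfl
    simp at hdeg
  have hdr : (1:ℝ) ≤ p.natDegree := by exact_mod_cast hdeg
  have hNle : c * p.natDegree ≤ ⌈c * p.natDegree⌉₊ := Nat.le_ceil _
  have hNpos : 0 < ⌈c * p.natDegree⌉₊ := by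
    rw [Nat.ceil_pos]
    have : 0 < c := by linarith
    positivity
  rcases Nat.eq_or_lt_of_le hdeg with h1 | h2
  · -- degree one
    refine ⟨0, hNpos, ?_⟩
    have hd1 : p.natDegree = 1 := h1.symm
    obtain ⟨a, b, ha, rfl⟩ : ∃ a b : ℂ, a ≠ 0 ∧ p = C a * X + C b := by
      obtain ⟨a, ha, b, hab⟩ := natDegree_eq_one.1 hd1
      exact ⟨a, b, ha, hab.symm⟩
    have hder : ∀ z, (C a * X + C b : ℂ[X]).derivative.eval z = a := by
      intro z; simp
    have hroot : a * α + b = 0 := by simpa using hα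
    have hnew : ∀ z, newton (C a * X + C b) z = α := by
      intro z
      rw [newton, hder]
      simp
      field_simp
      linear_combination -hroot
    constructor
    · intro n
      left
      rw [hder]
      exact ha
    · rw [← tendsto_add_atTop_iff_nat 1]
      simp only [Function.iterate_succ_apply', hnew]
      exact tendsto_const_nhds
  · -- degree at least two
    have hFset : {z : ℂ | p.IsRoot z} = (p.roots.toFinset : Set ℂ) := by
      ext z
      simp [hp0]
    have hFfin : {z : ℂ | p.IsRoot z}.Finite := by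
      rw [hFset]; exact Finset.finite_toSet _
    obtain ⟨u, hu, hsupp⟩ := exists_support hFfin hα hfr
    have hu0 : u ≠ 0 := by
      intro h0
      rw [h0, norm_zero] at hu
      exact zero_ne_one hu
    have huu : u * starRingEnd ℂ u = 1 := by
      rw [mul_conj, normSq_eq_norm_sq, hu]; norm_num
    let r : p.roots.ToType → ℂ := fun i => starRingEnd ℂ u * (i.1 - α)
    have hri : ∀ i : p.roots.ToType, α + u * r i = i.1 := by
      intro i
      have : u * r i = (u * starRingEnd ℂ u) * (i.1 - α) := by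
        simp only [r]; ring
      rw [this, huu]; ring
    have hiroot : ∀ i : p.roots.ToType, p.IsRoot i.1 := fun i =>
      (mem_roots hp0).1 (Multiset.coe_mem (x := i))
    have hconf : Conf p α u r := by
      refine ⟨hu, ?_, hp0⟩
      simp only [hri]
      exact (Multiset.map_univ_coe p.roots).symm
    have hcardι : Fintype.card p.roots.ToType = p.natDegree := by
      rw [Multiset.card_coe]
      exact (IsAlgClosed.splits p).natDegree_eq_card_roots.symm
    have hr : ∀ i, (r i).re ≤ 0 := fun i => hsupp _ (hiroot i)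
    have hr2 : ∀ i, ‖r i‖ ≤ 2 := by
      intro i
      simp only [r]
      rw [norm_mul, norm_conj, hu, one_mul]
      have := norm_sub_le i.1 α
      have h3 := hdisc _ (hiroot i)
      have h4 := hdisc _ hα
      linarith
    have hm : 1 ≤ mult r := by
      classical
      rw [mult, Nat.one_le_iff_ne_zero, ← Nat.pos_iff_ne_zero, Fintype.card_pos_iff]
      have hαr : α ∈ p.roots := (mem_roots hp0).2 hα
      rw [← Multiset.map_univ_coe p.roots, Multiset.mem_map] at hαr
      obtain ⟨i, -, hi⟩ := hαr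
      refine ⟨⟨i, ?_⟩⟩
      simp only [r]
      rw [hi, sub_self, mul_zero]
    obtain ⟨q, hq, hqball⟩ := hcore p.roots.ToType r hr (by rw [hcardι]; exact h2) hr2 hm α u hu (hdisc _ hα)
      (fun i => by rw [hri]; exact hdisc _ (hiroot i))
    obtain ⟨j, hj, hjn⟩ := exists_near hR0 hNpos hq
    refine ⟨j, hj, ?_⟩
    set w := (R : ℂ) * exp (2 * Real.pi * I * j / (⌈c * p.natDegree⌉₊ : ℕ)) with hw
    set ζ := starRingEnd ℂ u * (w - α) with hζ
    have hwζ : w = α + u * ζ := by
      have : u * ζ = (u * starRingEnd ℂ u) * (w - α) := by rw [hζ]; ring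
      rw [this, huu]; ring
    have hζq : ζ ∈ ball q (c1 / Fintype.card p.roots.ToType) := by
      rw [mem_ball, dist_eq_norm]
      have h3 : ‖ζ - q‖ = ‖w - (α + u * q)‖ := by
        have : w - (α + u * q) = u * (ζ - q) := by rw [hwζ]; ring
        rw [this, norm_mul, hu, one_mul]
      rw [h3]
      refine hjn.trans_lt ?_
      rw [hcardι]
      have hNr : (0:ℝ) < (⌈c * p.natDegree⌉₊ : ℕ) := by exact_mod_cast hNpos
      have h4 : 2 * Real.pi * R / c1 * p.natDegree < (⌈c * p.natDegree⌉₊ : ℕ) := by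
        refine lt_of_lt_of_le ?_ hNle
        rw [hc]
        nlinarith
      rw [← mul_div_assoc, div_lt_div_iff₀ hNr (by linarith)]
      have h5 : 2 * Real.pi * R / c1 * p.natDegree * c1 < (⌈c * p.natDegree⌉₊ : ℕ) * c1 := by
        gcongr
      have h6 : 2 * Real.pi * R / c1 * p.natDegree * c1 = R * (2 * Real.pi) * p.natDegree := by
        field_simp
      rw [h6] at h5
      linarith
    obtain ⟨n, x, ζ', hS, hζ'H, hζ'n, hζ'e⟩ := hqball ζ hζq
    rw [hwζ, ← hζ'e]
    exact hconf.far hα hr (by rw [hcardι]; exact h2) hS hζ'n hζ'H n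

end Pool.Agent.Results.MP_26a6ef_an.NewtonBoundaryRoots
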